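import Mathlib

/-!
# The image of the product measures under belief propagation is not convex

For `q ≥ 4` colours, two children and every `β < 1`, the images of the point measures at the pairs
`(1, 2)`, `(1, 3)` and `(2, 3)` are in the image of the product measures, but their barycentre is not:
the functional `G₁ + G₂ + G₃ - (1 + 2 β) G₄` is nonnegative, and it vanishes at a product measure only
if the measure is supported by the three pairs.
-/

set_option autoImplicit false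

namespace Pool.Agent.Results.MP_d064d6_lc.NotConvex

open Finset

/-- Probability vectors. -/
def IsProb {α : Type} [Fintype α] (μ : α → ℝ) : Prop := (∀ a, 0 ≤ μ a) ∧ ∑ a, μ a = 1

/-- The antiferromagnetic Potts interaction matrix. -/
noncomputable def A (q : ℕ) (β : ℝ) (c b : Fin q) : ℝ := if c = b then β else 1

/-- The unnormalised belief-propagation map. -/
noncomputable def G {q d : ℕ} (β : ℝ) (μ : (Fin d → Fin q) → ℝ) (c : Fin q) : ℝ :=
  ∑ τ, μ τ * ∏ i, A q β c (τ i)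

/-- The belief-propagation map. -/
noncomputable def F {q d : ℕ} (β : ℝ) (μ : (Fin d → Fin q) → ℝ) : Fin q → ℝ :=
  fun c => G β μ c / ∑ b, G β μ b

/-- The image of the product measures. -/
def Fprod (q d : ℕ) (β : ℝ) : Set (Fin q → ℝ) :=
  {x | ∃ p : Fin d → Fin q → ℝ, (∀ i, IsProb (p i)) ∧ x = F β fun τ => ∏ i, p i (τ i)}

theorem sum_A {q : ℕ} (β : ℝ) {p : Fin q → ℝ} (hp : IsProb p) (c : Fin q) :
    ∑ b, p b * A q β c b = 1 - (1 - β) * p c := by
  have h1 : ∀ b, p b * A q β c b = p b - if c = b then (1 - β) * p b else 0 := by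
    intro b
    unfold A
    split_ifs <;> ring
  rw [Finset.sum_congr rfl fun b _ => h1 b, Finset.sum_sub_distrib, hp.2, Finset.sum_ite_eq,
    if_pos (Finset.mem_univ _)]

/-- The value of the map at a product measure. -/
theorem G_prod {q d : ℕ} (β : ℝ) {p : Fin d → Fin q → ℝ} (hp : ∀ i, IsProb (p i)) (c : Fin q) :
    G β (fun τ => ∏ i, p i (τ i)) c = ∏ i, (1 - (1 - β) * p i c) := by
  unfold G
  have h1 : ∀ i, 1 - (1 - β) * p i c = ∑ b, p i b * A q β c b := fun i => (sum_A β (hp i) c).symm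
  rw [Finset.prod_congr rfl fun i _ => h1 i, Finset.prod_univ_sum, Fintype.piFinset_univ]
  exact Finset.sum_congr rfl fun τ _ => Finset.prod_mul_distrib.symm

/-- The point measures. -/
noncomputable def δ {q : ℕ} (a : Fin q) : Fin q → ℝ := Pi.single a 1

theorem isProb_δ {q : ℕ} (a : Fin q) : IsProb (δ a) := by
  constructor
  · intro b
    unfold δ
    by_cases h : b = a
    · subst h; simp
    · rw [Pi.single_eq_of_ne h]
  · simp [δ]

/-- The weights of the two measures cannot exist. -/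
theorem no_weights {γ r x0 x1 x2 x3 y0 y1 y2 y3 : ℝ} (hγ0 : 0 < γ) (hγ1 : γ ≤ 1)
    (a0 : 0 ≤ x0) (a1 : 0 ≤ x1) (a2 : 0 ≤ x2) (a3 : 0 ≤ x3)
    (b0 : 0 ≤ y0) (b1 : 0 ≤ y1) (b2 : 0 ≤ y2) (b3 : 0 ≤ y3)
    (s0 : x0 + x1 + x2 + x3 ≤ 1) (s1 : y0 + y1 + y2 + y3 ≤ 1)
    (w3 : (1 - γ * x3) * (1 - γ * y3) = r)
    (w0 : (1 - γ * x0) * (1 - γ * y0) = r * (3 - 2 * γ) / 3)
    (w1 : (1 - γ * x1) * (1 - γ * y1) = r * (3 - 2 * γ) / 3)
    (w2 : (1 - γ * x2) * (1 - γ * y2) = r * (3 - 2 * γ) / 3) : False := by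
  have hr1 : r ≤ 1 := by
    rw [← w3]
    have e1 : 0 ≤ 1 - γ * x3 := by nlinarith
    have e2 : 0 ≤ γ * x3 := by positivity
    have e3 : 0 ≤ γ * y3 := by positivity
    have e4 : (1 - γ * x3) * (1 - γ * y3) = (1 - γ * x3) - (1 - γ * x3) * (γ * y3) := by ring
    have e5 : 0 ≤ (1 - γ * x3) * (γ * y3) := mul_nonneg e1 e3
    linarith
  have m0 : 0 ≤ x0 * y0 := mul_nonneg a0 b0
  have m1 : 0 ≤ x1 * y1 := mul_nonneg a1 b1
  have m2 : 0 ≤ x2 * y2 := mul_nonneg a2 b2
  have hE : 3 - γ * (x0 + x1 + x2 + (y0 + y1 + y2)) + γ ^ 2 * (x0 * y0 + x1 * y1 + x2 * y2) =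
      r * (3 - 2 * γ) := by linear_combination w0 + w1 + w2
  have hr2 : r * (3 - 2 * γ) ≤ 3 - 2 * γ := by
    have : 0 ≤ 3 - 2 * γ := by linarith
    nlinarith
  have hu : γ * (x0 + x1 + x2 + (y0 + y1 + y2)) ≤ γ * (2 - x3 - y3) :=
    mul_le_mul_of_nonneg_left (by linarith) hγ0.le
  have hg2 : 0 < γ ^ 2 := by positivity
  have hz : γ * (x3 + y3) + γ ^ 2 * (x0 * y0 + x1 * y1 + x2 * y2) ≤ 0 := by nlinarith
  have hz1 : 0 ≤ γ * (x3 + y3) := by positivity
  have hz2 : 0 ≤ γ ^ 2 * (x0 * y0 + x1 * y1 + x2 * y2) := by positivity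
  have hz3 : γ * (x3 + y3) = 0 := le_antisymm (by linarith) hz1
  have hz4 : γ ^ 2 * (x0 * y0 + x1 * y1 + x2 * y2) = 0 := le_antisymm (by linarith) hz2
  have hz5 : x3 + y3 = 0 := (mul_eq_zero.1 hz3).resolve_left hγ0.ne'
  have hz6 : x0 * y0 + x1 * y1 + x2 * y2 = 0 := (mul_eq_zero.1 hz4).resolve_left hg2.ne'
  have x3z : x3 = 0 := by linarith
  have y3z : y3 = 0 := by linarith
  have p0 : x0 * y0 = 0 := by linarith
  have p1 : x1 * y1 = 0 := by linarith
  have p2 : x2 * y2 = 0 := by linarith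
  have hr3 : r = 1 := by
    rw [← w3, x3z, y3z]
    ring
  have t0 : x0 + y0 = 2 / 3 := by
    have h : γ * (x0 + y0) = γ * (2 / 3) := by
      rw [hr3] at w0
      linear_combination -w0 + γ ^ 2 * p0
    exact mul_left_cancel₀ hγ0.ne' h
  have t1 : x1 + y1 = 2 / 3 := by
    have h : γ * (x1 + y1) = γ * (2 / 3) := by
      rw [hr3] at w1
      linear_combination -w1 + γ ^ 2 * p1
    exact mul_left_cancel₀ hγ0.ne' h
  have t2 : x2 + y2 = 2 / 3 := by
    have h : γ * (x2 + y2) = γ * (2 / 3) := by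
      rw [hr3] at w2
      linear_combination -w2 + γ ^ 2 * p2
    exact mul_left_cancel₀ hγ0.ne' h
  have hx1 : x0 + x1 + x2 = 1 := by linarith
  rcases mul_eq_zero.1 p0 with h0 | h0 <;> rcases mul_eq_zero.1 p1 with h1 | h1 <;>
    rcases mul_eq_zero.1 p2 with h2 | h2 <;> rw [h0] at t0 <;> rw [h1] at t1 <;>
    rw [h2] at t2 <;> linarith


/-- For at least four colours and two children, the image of the product measures is not convex. -/
theorem result (q : ℕ) (hq : 4 ≤ q) (β : ℝ) (hβ : max 0 (1 - (q : ℝ) / ((2 : ℕ) + 1)) ≤ β)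
    (hβ1 : β < 1) : ¬ Convex ℝ (Fprod q 2 β) := by
  intro hconv
  have hβ0 : 0 ≤ β := (le_max_left _ _).trans hβ
  let c0 : Fin q := ⟨0, by omega⟩
  let c1 : Fin q := ⟨1, by omega⟩
  let c2 : Fin q := ⟨2, by omega⟩
  let c3 : Fin q := ⟨3, by omega⟩
  have h01 : c0 ≠ c1 := by simp [c0, c1]
  have h02 : c0 ≠ c2 := by simp [c0, c2]
  have h03 : c0 ≠ c3 := by simp [c0, c3]
  have h12 : c1 ≠ c2 := by simp [c1, c2]
  have h13 : c1 ≠ c3 := by simp [c1, c3]
  have h23 : c2 ≠ c3 := by simp [c2, c3]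
  -- the value at a pair of point measures
  let P : Fin q → Fin q → Fin 2 → Fin q → ℝ := fun a b => ![δ a, δ b]
  have hP : ∀ a b i, IsProb (P a b i) := by
    intro a b i
    fin_cases i
    · exact isProb_δ a
    · exact isProb_δ b
  have hG : ∀ a b c, G β (fun τ => ∏ i, P a b i (τ i)) c =
      (1 - (1 - β) * δ a c) * (1 - (1 - β) * δ b c) := by
    intro a b c
    rw [G_prod β (hP a b), Fin.prod_univ_two]
    rfl
  have hS : ∀ a b : Fin q, a ≠ b → ∑ c, G β (fun τ => ∏ i, P a b i (τ i)) c = q - 2 + 2 * β := by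
    intro a b hab
    have h1 : ∀ c, G β (fun τ => ∏ i, P a b i (τ i)) c =
        1 - (1 - β) * δ a c - (1 - β) * δ b c := by
      intro c
      rw [hG]
      have h2 : δ a c * δ b c = 0 := by
        unfold δ
        by_cases h : c = a
        · subst h
          rw [Pi.single_eq_of_ne hab, mul_zero]
        · rw [Pi.single_eq_of_ne h, zero_mul]
      linear_combination (1 - β) ^ 2 * h2
    rw [Finset.sum_congr rfl fun c _ => h1 c, Finset.sum_sub_distrib, Finset.sum_sub_distrib,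
      ← Finset.mul_sum, ← Finset.mul_sum, (isProb_δ a).2, (isProb_δ b).2]
    simp
    ring
  set D : ℝ := q - 2 + 2 * β with hD
  have hq' : (4 : ℝ) ≤ q := by exact_mod_cast hq
  have hDpos : 0 < D := by rw [hD]; linarith
  have hmem : ∀ a b : Fin q, a ≠ b →
      (fun c => (1 - (1 - β) * δ a c) * (1 - (1 - β) * δ b c) / D) ∈ Fprod q 2 β := by
    intro a b hab
    refine ⟨P a b, hP a b, ?_⟩
    ext c
    unfold F
    rw [hS a b hab, hG]
  have hx := hconv.sum_mem (t := (Finset.univ : Finset (Fin 3))) (w := fun _ => (1 / 3 : ℝ))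
    (z := ![fun c => (1 - (1 - β) * δ c0 c) * (1 - (1 - β) * δ c1 c) / D,
      fun c => (1 - (1 - β) * δ c0 c) * (1 - (1 - β) * δ c2 c) / D,
      fun c => (1 - (1 - β) * δ c1 c) * (1 - (1 - β) * δ c2 c) / D])
    (fun _ _ => by norm_num) (by simp) (by
      intro i _
      fin_cases i
      · exact hmem _ _ h01
      · exact hmem _ _ h02
      · exact hmem _ _ h12)
  obtain ⟨p, hp, hxp⟩ := hx
  have hval : ∀ c, (1 / 3 : ℝ) * ((1 - (1 - β) * δ c0 c) * (1 - (1 - β) * δ c1 c) / D) +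
      1 / 3 * ((1 - (1 - β) * δ c0 c) * (1 - (1 - β) * δ c2 c) / D) +
      1 / 3 * ((1 - (1 - β) * δ c1 c) * (1 - (1 - β) * δ c2 c) / D) =
      (1 - (1 - β) * p 0 c) * (1 - (1 - β) * p 1 c) / ∑ b, G β (fun τ => ∏ i, p i (τ i)) b := by
    intro c
    have h1 := congrFun hxp c
    rw [Fin.sum_univ_three] at h1
    unfold F at h1
    rw [G_prod β hp, Fin.prod_univ_two] at h1
    exact h1
  set S := ∑ b, G β (fun τ => ∏ i, p i (τ i)) b with hSdef
  have hδ : ∀ a : Fin q, δ a a = 1 := fun a => Pi.single_eq_same a 1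
  have hδ' : ∀ a b : Fin q, b ≠ a → δ a b = 0 := fun a b h => Pi.single_eq_of_ne h 1
  have v0 := hval c0
  have v1 := hval c1
  have v2 := hval c2
  have v3 := hval c3
  rw [hδ c0, hδ' c1 c0 h01, hδ' c2 c0 h02] at v0
  rw [hδ c1, hδ' c0 c1 h01.symm, hδ' c2 c1 h12] at v1
  rw [hδ c2, hδ' c0 c2 h02.symm, hδ' c1 c2 h12.symm] at v2
  rw [hδ' c0 c3 h03.symm, hδ' c1 c3 h13.symm, hδ' c2 c3 h23.symm] at v3
  have hS0 : S ≠ 0 := by
    intro h
    rw [h, div_zero] at v3
    have : (1 / 3 : ℝ) * ((1 - (1 - β) * 0) * (1 - (1 - β) * 0) / D) +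
      1 / 3 * ((1 - (1 - β) * 0) * (1 - (1 - β) * 0) / D) +
      1 / 3 * ((1 - (1 - β) * 0) * (1 - (1 - β) * 0) / D) = 1 / D := by ring
    rw [this] at v3
    exact absurd v3 (by positivity)
  -- the weights
  set γ := 1 - β with hγ
  have hγ0 : 0 < γ := by rw [hγ]; linarith
  have hγ1 : γ ≤ 1 := by rw [hγ]; linarith
  set r := S / D with hr
  have w3 : (1 - γ * p 0 c3) * (1 - γ * p 1 c3) = r := by
    rw [hr]
    field_simp at v3 ⊢
    linarith
  have w0 : (1 - γ * p 0 c0) * (1 - γ * p 1 c0) = r * (3 - 2 * γ) / 3 := by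
    rw [hr]
    field_simp at v0 ⊢
    linarith
  have w1 : (1 - γ * p 0 c1) * (1 - γ * p 1 c1) = r * (3 - 2 * γ) / 3 := by
    rw [hr]
    field_simp at v1 ⊢
    linarith
  have w2 : (1 - γ * p 0 c2) * (1 - γ * p 1 c2) = r * (3 - 2 * γ) / 3 := by
    rw [hr]
    field_simp at v2 ⊢
    linarith
  -- the sums of the probabilities
  have hsum : ∀ i, p i c0 + p i c1 + p i c2 + p i c3 ≤ 1 := by
    intro i
    rw [← (hp i).2]
    have h1 : ∑ b ∈ ({c0, c1, c2, c3} : Finset (Fin q)), p i b ≤ ∑ b, p i b :=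
      Finset.sum_le_sum_of_subset_of_nonneg (Finset.subset_univ _) fun b _ _ => (hp i).1 b
    rw [Finset.sum_insert (by simp [h01, h02, h03]), Finset.sum_insert (by simp [h12, h13]),
      Finset.sum_insert (by simp [h23]), Finset.sum_singleton] at h1
    linarith
  have s0 := hsum 0
  have s1 := hsum 1
  have n0 := (hp 0).1
  have n1 := (hp 1).1
  exact no_weights hγ0 hγ1 (n0 c0) (n0 c1) (n0 c2) (n0 c3) (n1 c0) (n1 c1) (n1 c2) (n1 c3) s0 s1
    w3 w0 w1 w2

end Pool.Agent.Results.MP_d064d6_lc.NotConvex
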